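import Pool.Agent.helper87.FM.Spec

/-!
# Row `fm:GSB` (adapted from `Pool/Agent/helper98/NS/GS.lean`)
-/

set_option autoImplicit false

namespace Pool.Agent.FM

open Polynomial Matrix Pool.Agent.helper42.NS Pool.Agent.FS

/-- The property `R1`, `R2` for large segments. -/
def GSB_QB (a : ℕ) (t : ℕ) (H : Matrix (Fin t) (Fin t) ℤ) : Prop :=
  2 ^ (10 * a - 1) ≤ t → R1 a H ∧ (Good (11 * a + 10) H → R2 a H)

/-- The property of stage 1. -/
def GSB_QD (a p : ℕ) (t : ℕ) (H : Matrix (Fin t) (Fin t) ℤ) : Prop :=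
  3 * 2 ^ (10 * a - 2) ≤ t → Hered (W1 a) t H → ∀ P : Pt, Above p P → crk P H ≤ 24

theorem GSB_h1 (a : ℕ) : ∀ (t : ℕ) (H : Matrix (Fin t) (Fin t) ℤ),
    Hered (fun _ H => Good (11 * a + 10) H) t H → Hered (GSB_QB a) t H → Hered (W1 a) t H
  | 0, _, h1, h2 => ⟨h1, fun h => ⟨(h2 h).1, (h2 h).2 h1⟩⟩
  | t + 1, H, h1, h2 =>
    ⟨⟨h1.1, fun h => ⟨(h2.1 h).1, (h2.1 h).2 h1.1⟩⟩, GSB_h1 a t (tl H) h1.2 h2.2⟩

theorem GSB_h2 (a p : ℕ) : ∀ (t : ℕ) (H : Matrix (Fin t) (Fin t) ℤ),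
    Hered (W1 a) t H → Hered (GSB_QD a p) t H → Hered (W2 a p) t H
  | 0, _, h1, h2 => ⟨h1, fun h => h2 h h1⟩
  | t + 1, H, h1, h2 => ⟨⟨h1.1, fun h => h2.1 h h1⟩, GSB_h2 a p t (tl H) h1.2 h2.2⟩

theorem GSB (h1 : R1D_stmt) (h2 : R2F_stmt) (h3 : SU1_stmt) (h4 : SU2_stmt) : GSB_stmt := by
  classical
  intro a m p ha hp hpa hm0 hm
  have g1 := T_CRU (11 * a + 10) m (by omega) (hm.trans (Nat.pow_le_pow_right (by norm_num) (by omega)))
  have g6 := h4 a m p (by omega) hp hpa hm0 hm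
  have hm1 : 2 ^ (10 * a - 1) ≤ m := (Nat.pow_le_pow_right (by norm_num) (by omega)).trans hm0
  have hm2 : 3 * 2 ^ (10 * a - 2) ≤ m := by
    have : 2 ^ (10 * a) = 2 ^ (10 * a - 2) * 2 ^ 2 := by
      rw [← pow_add]
      congr 1
      omega
    omega
  -- the failure of `GSB_QB`
  have g2 := HER (GSB_QB a) (fun t => if 2 ^ (10 * a - 1) ≤ t then 2 / 2 ^ (11 * a) else 0)
    m (by
      intro t ht
      by_cases h : 2 ^ (10 * a - 1) ≤ t
      · simp only [if_pos h]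
        have e1 : (cnt t (fun H => ¬ GSB_QB a t H) : ℝ) ≤ cnt t (fun H => ¬ R1 a H) +
            cnt t (fun H => Good (11 * a + 10) H ∧ ¬ R2 a H) := by
          refine GS_union fun H _ hH => ?_
          by_contra hcon
          push Not at hcon
          exact hH fun _ => ⟨hcon.1, fun hg => hcon.2 hg⟩
        have e2 : (cnt t (fun H => ¬ R1 a H) : ℝ) * 2 ^ (11 * a) ≤ 2 ^ (t.choose 2) := by
          exact_mod_cast h1 a t (by omega) h (ht.trans hm)
        have e3 : (cnt t (fun H => Good (11 * a + 10) H ∧ ¬ R2 a H) : ℝ) * 2 ^ (11 * a) ≤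
            2 ^ (t.choose 2) := by
          exact_mod_cast h2 a t (by omega) h (ht.trans hm)
        rw [div_mul_eq_mul_div, le_div_iff₀ (by positivity)]
        have e4 := mul_le_mul_of_nonneg_right e1 (show (0 : ℝ) ≤ 2 ^ (11 * a) by positivity)
        linarith
      · simp only [if_neg h, zero_mul]
        have e1 : (cnt t (fun H => ¬ GSB_QB a t H) : ℝ) ≤ cnt t (fun _ => False) :=
          GS_mono fun H _ hH => hH fun h' => absurd h' h
        have e2 : cnt t (fun _ => False) = 0 := by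
          unfold cnt
          simp
        rw [e2] at e1
        simpa using e1)
  have s2 := GS_sum m (2 / 2 ^ (11 * a)) (fun t => 2 ^ (10 * a - 1) ≤ t) (by positivity)
  -- the failure of `GSB_QD`
  have g3 := HER (GSB_QD a p) (fun t => if 3 * 2 ^ (10 * a - 2) ≤ t then 2 ^ 84 / 2 ^ (14 * a) else 0)
    m (by
      intro t ht
      by_cases h : 3 * 2 ^ (10 * a - 2) ≤ t
      · simp only [if_pos h]
        have e1 : (cnt t (fun H => ¬ GSB_QD a p t H) : ℝ) ≤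
            cnt t (fun H => Hered (W1 a) t H ∧ ∃ P : Pt, Above p P ∧ 25 ≤ crk P H) := by
          refine GS_mono fun H _ hH => ?_
          unfold GSB_QD at hH
          push Not at hH
          obtain ⟨-, h8, P, h9, h10⟩ := hH
          exact ⟨h8, P, h9, h10⟩
        have e2 : (cnt t (fun H => Hered (W1 a) t H ∧ ∃ P : Pt, Above p P ∧ 25 ≤ crk P H) : ℝ) *
            2 ^ (14 * a) ≤ 2 ^ 84 * 2 ^ (t.choose 2) := by
          exact_mod_cast h3 a t p (by omega) hp hpa h (ht.trans hm)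
        rw [div_mul_eq_mul_div, le_div_iff₀ (by positivity)]
        exact (mul_le_mul_of_nonneg_right e1 (by positivity)).trans e2
      · simp only [if_neg h, zero_mul]
        have e1 : (cnt t (fun H => ¬ GSB_QD a p t H) : ℝ) ≤ cnt t (fun _ => False) :=
          GS_mono fun H _ hH => hH fun h' => absurd h' h
        have e2 : cnt t (fun _ => False) = 0 := by
          unfold cnt
          simp
        rw [e2] at e1
        simpa using e1)
  have s3 := GS_sum m (2 ^ 84 / 2 ^ (14 * a)) (fun t => 3 * 2 ^ (10 * a - 2) ≤ t)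
    (by positivity)
  -- the union
  have key : ∀ H : Matrix (Fin m) (Fin m) ℤ, IsGr H → ¬ W3 a p H →
      ¬ Hered (fun _ H => Good (11 * a + 10) H) m H ∨
      ¬ Hered (GSB_QB a) m H ∨ ¬ Hered (GSB_QD a p) m H ∨
      (Hered (W2 a p) m H ∧ ∃ P : Pt, 2 ^ a ≤ qP P ∧ 82 ≤ crk P H) := by
    intro H hG hF
    by_contra hcon
    push Not at hcon
    obtain ⟨c1, c2, c3, c4⟩ := hcon
    have d1 := GSB_h1 a _ H c1 c2
    have d2 := GSB_h2 a p _ H d1 c3
    have d3 := GS_top _ _ H d2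
    apply hF
    refine ⟨d1, d3.2 hm2, fun P hP => ?_⟩
    have := c4 d2 P hP
    omega
  obtain ⟨W, hW⟩ : ∃ W : ℝ, W = 2 ^ (m.choose 2) := ⟨_, rfl⟩
  have hW0 : 0 ≤ W := by
    rw [hW]
    positivity
  have u1 := GS_union (t := m) key
  have u2 := GS_union (t := m) (A := fun H => ¬ Hered (GSB_QB a) m H ∨
      ¬ Hered (GSB_QD a p) m H ∨
      (Hered (W2 a p) m H ∧ ∃ P : Pt, 2 ^ a ≤ qP P ∧ 82 ≤ crk P H)) fun H _ h => h
  have u3 := GS_union (t := m) (A := fun H => ¬ Hered (GSB_QD a p) m H ∨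
      (Hered (W2 a p) m H ∧ ∃ P : Pt, 2 ^ a ≤ qP P ∧ 82 ≤ crk P H)) fun H _ h => h
  have hmR : (m : ℝ) + 1 ≤ 2 ^ (10 * a + 11) := by
    have e1 : (m : ℝ) ≤ 2 ^ (10 * a + 10) := by exact_mod_cast hm
    have e2 : (1 : ℝ) ≤ 2 ^ (10 * a + 10) := one_le_pow₀ (by norm_num)
    have e3 : (2 : ℝ) ^ (10 * a + 11) = 2 ^ (10 * a + 10) * 2 := pow_succ _ _
    linarith
  have hA : (0 : ℝ) < 2 ^ a := by positivity
  have v1 : (cnt m (fun H => ¬ Hered (fun _ H => Good (11 * a + 10) H) m H) : ℝ) * 2 ^ a ≤ W := by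
    have e1 : (cnt m (fun H => ¬ Hered (fun _ H => Good (11 * a + 10) H) m H) : ℝ) *
        2 ^ (11 * a + 10 + 1) ≤ m * W := by
      rw [hW]
      exact_mod_cast g1
    have e2 : (2 : ℝ) ^ (11 * a + 10 + 1) = 2 ^ (10 * a + 11) * 2 ^ a := by
      rw [← pow_add]
      congr 1
      omega
    rw [e2] at e1
    have e3 : (0 : ℝ) < 2 ^ (10 * a + 11) := by positivity
    have e4 : (2 : ℝ) ^ (10 * a + 11) *
        ((cnt m (fun H => ¬ Hered (fun _ H => Good (11 * a + 10) H) m H) : ℝ) * 2 ^ a) ≤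
        2 ^ (10 * a + 11) * W := by
      have e5 : (m : ℝ) * W ≤ 2 ^ (10 * a + 11) * W :=
        mul_le_mul_of_nonneg_right (by linarith) hW0
      linarith
    exact le_of_mul_le_mul_left e4 e3
  have v2 : (cnt m (fun H => ¬ Hered (GSB_QB a) m H) : ℝ) * 2 ^ a ≤ 2 ^ 12 * W := by
    have e0 : ((m : ℝ) + 1) * (2 / 2 ^ (11 * a)) * 2 ^ a ≤ 2 ^ 12 := by
      have e1 : ((m : ℝ) + 1) * (2 / 2 ^ (11 * a)) ≤ 2 ^ (10 * a + 11) * (2 / 2 ^ (11 * a)) :=
        mul_le_mul_of_nonneg_right hmR (by positivity)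
      refine (mul_le_mul_of_nonneg_right e1 hA.le).trans (le_of_eq ?_)
      have e2 : (2 : ℝ) ^ (11 * a) = 2 ^ (10 * a) * 2 ^ a := by
        rw [← pow_add]
        congr 1
        omega
      rw [e2, pow_add]
      have e3 : (0 : ℝ) < 2 ^ (10 * a) := by positivity
      field_simp
    have e1 := mul_le_mul_of_nonneg_right (g2.trans (mul_le_mul_of_nonneg_right s2
      (show (0 : ℝ) ≤ 2 ^ (m.choose 2) by positivity))) hA.le
    rw [← hW] at e1
    refine e1.trans ?_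
    calc ((m : ℝ) + 1) * (2 / 2 ^ (11 * a)) * W * 2 ^ a
        = (((m : ℝ) + 1) * (2 / 2 ^ (11 * a)) * 2 ^ a) * W := by ring
      _ ≤ 2 ^ 12 * W := mul_le_mul_of_nonneg_right e0 hW0
  have v3 : (cnt m (fun H => ¬ Hered (GSB_QD a p) m H) : ℝ) * 2 ^ a ≤ W := by
    have e0 : ((m : ℝ) + 1) * (2 ^ 84 / 2 ^ (14 * a)) * 2 ^ a ≤ 1 := by
      have e1 : ((m : ℝ) + 1) * (2 ^ 84 / 2 ^ (14 * a)) ≤ 2 ^ (10 * a + 11) * (2 ^ 84 / 2 ^ (14 * a)) :=
        mul_le_mul_of_nonneg_right hmR (by positivity)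
      refine (mul_le_mul_of_nonneg_right e1 hA.le).trans ?_
      have e2 : (2 : ℝ) ^ (14 * a) = 2 ^ (10 * a + 95) * 2 ^ a * 2 ^ (3 * a - 95) := by
        rw [← pow_add, ← pow_add]
        congr 1
        omega
      have e3 : (2 : ℝ) ^ (10 * a + 11) * (2 ^ 84 / 2 ^ (14 * a)) * 2 ^ a =
          (2 ^ (10 * a + 95) * 2 ^ a) / 2 ^ (14 * a) := by
        rw [show (2 : ℝ) ^ (10 * a + 95) = 2 ^ (10 * a + 11) * 2 ^ 84 by rw [← pow_add]]
        ring
      rw [e3, div_le_one (by positivity), e2]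
      have e4 : (1 : ℝ) ≤ 2 ^ (3 * a - 95) := one_le_pow₀ (by norm_num)
      exact le_mul_of_one_le_right (by positivity) e4
    have e1 := mul_le_mul_of_nonneg_right (g3.trans (mul_le_mul_of_nonneg_right s3
      (show (0 : ℝ) ≤ 2 ^ (m.choose 2) by positivity))) hA.le
    rw [← hW] at e1
    refine e1.trans ?_
    calc ((m : ℝ) + 1) * (2 ^ 84 / 2 ^ (14 * a)) * W * 2 ^ a
        = (((m : ℝ) + 1) * (2 ^ 84 / 2 ^ (14 * a)) * 2 ^ a) * W := by ring
      _ ≤ 1 * W := mul_le_mul_of_nonneg_right e0 hW0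
      _ = W := one_mul W
  have v4 : (cnt m (fun H => Hered (W2 a p) m H ∧
      ∃ P : Pt, 2 ^ a ≤ qP P ∧ 82 ≤ crk P H) : ℝ) * 2 ^ a ≤ W := by
    have e1 : (cnt m (fun H => Hered (W2 a p) m H ∧
      ∃ P : Pt, 2 ^ a ≤ qP P ∧ 82 ≤ crk P H) : ℝ) * 2 ^ (5 * a) ≤ 2 ^ 178 * W := by
      rw [hW]
      exact_mod_cast g6
    have e2 : (2 : ℝ) ^ 178 * 2 ^ a ≤ 2 ^ (5 * a) := by
      rw [← pow_add]
      exact pow_le_pow_right₀ (by norm_num) (by omega)
    generalize (cnt m (fun H => Hered (W2 a p) m H ∧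
      ∃ P : Pt, 2 ^ a ≤ qP P ∧ 82 ≤ crk P H)) = Z at e1 ⊢
    have e3 := (mul_le_mul_of_nonneg_left e2 (Nat.cast_nonneg (α := ℝ) Z)).trans e1
    have e4 : (0 : ℝ) < 2 ^ 178 := by positivity
    have e5 : (2 : ℝ) ^ 178 * ((Z : ℝ) * 2 ^ a) ≤ 2 ^ 178 * W := by
      calc (2 : ℝ) ^ 178 * ((Z : ℝ) * 2 ^ a) = Z * (2 ^ 178 * 2 ^ a) := by ring
        _ ≤ _ := e3
    exact le_of_mul_le_mul_left e5 e4
  have fin : (cnt m (fun H => ¬ W3 a p H) : ℝ) * 2 ^ a ≤ 2 ^ 14 * W := by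
    have f1 := mul_le_mul_of_nonneg_right u1 hA.le
    have f2 := mul_le_mul_of_nonneg_right u2 hA.le
    have f3 := mul_le_mul_of_nonneg_right u3 hA.le
    rw [add_mul] at f1 f2 f3
    linarith
  rw [hW] at fin
  exact_mod_cast fin

end Pool.Agent.FM
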